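import Pool.Agent.H516R2.EQP2.Props

/-!
Task CP (helper459): collapse of the hierarchy.
-/

namespace Pool.Agent.H516R2.EQP2

open Pool.Agent.NPC Pool.Agent.H622R2 Pool.Agent.H620R2.Gauge Finset H568R2 Pool.Agent.H676
  Pool.Agent.H516R2.EQP

/-- reducible to the oracle -/
def CP_Red (A : Oracle) (L : List Bool → Prop) : Prop :=
  ∃ g : List Bool → List Bool, PolyTime g ∧ ∀ x, L x ↔ A (g x) = true

/-- all NP questions relative to `A` are reducible to `A` -/
def CP_Hyp (A : Oracle) : Prop := ∀ (M : Alg) (p : Polynomial ℕ), ∃ g : List Bool → List Bool,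
    PolyTime g ∧ ∀ x, (NAcc M p A x ↔ A (g x) = true)

theorem CP_ex {A : Oracle} (hA : CP_Hyp A) {V : List Bool → List Bool} (hV : IsFP A V)
    (p : Polynomial ℕ) :
    CP_Red A (fun x => ∃ w : List Bool, w.length ≤ p.eval x.length ∧ V (pairBits w x) = [true]) := by
  obtain ⟨M, hM⟩ := hV
  obtain ⟨g, hg, h⟩ := hA M p
  refine ⟨g, hg, fun x => ?_⟩
  rw [← h x]
  unfold NAcc
  simp only [hM, Option.some.injEq]

theorem CP_zero {A : Oracle} (hA : CP_Hyp A) {V g : List Bool → List Bool} (hV : IsFP A V)
    (hg : Poly g) : CP_Red A (fun x => V (g x) = [true]) := by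
  have h2 : Poly (fun y : List Bool => (unpair y).2) := Poly.snd poly_unpair
  have h3 : IsFP A (fun y => V (g (unpair y).2)) := hV.precomp (hg.comp h2)
  obtain ⟨f, hf, h⟩ := CP_ex hA h3 0
  refine ⟨f, hf, fun x => ?_⟩
  rw [← h x]
  constructor
  · intro hx
    exact ⟨[], by simp, by rw [unpair_pairBits]; exact hx⟩
  · rintro ⟨w, _, hx⟩
    rw [unpair_pairBits] at hx
    exact hx

theorem CP_compl {A : Oracle} (hA : CP_Hyp A) {L : List Bool → Prop} (h : CP_Red A L) :
    CP_Red A (fun x => ¬ L x) := by
  obtain ⟨g, hg, hL⟩ := h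
  have hg' := poly_of_polyTime hg
  have h1 : IsFP A (fun x => if ([g x].map A) = [false] then [true] else []) :=
    IsFP.tt (A := A) (Q := fun x => [g x])
      (H := fun y => if y.2 = [false] then [true] else [])
      (Poly.cons hg' (NPC.Poly.const []))
      (Poly.ite (Poly.decide_eq (Poly.snd Poly.id) (NPC.Poly.const [false]))
        (NPC.Poly.const [true]) (NPC.Poly.const []))
  obtain ⟨f, hf, hh⟩ := CP_zero hA h1 (NPC.Poly.id)
  refine ⟨f, hf, fun x => ?_⟩
  rw [← hh x]
  show ¬ L x ↔ (if [g x].map A = [false] then [true] else ([] : List Bool)) = [true]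
  rw [hL x]
  cases hc : A (g x) <;> simp [hc]

theorem CP_step {A : Oracle} (hA : CP_Hyp A) {R : List Bool → Prop} (h : CP_Red A R)
    (p : Polynomial ℕ) :
    CP_Red A (fun z => ∃ w : List Bool, w.length ≤ p.eval (unpair z).1.length ∧
      R (pairBits (unpair z).1 (pairBits w (unpair z).2))) := by
  obtain ⟨g, hg, hR⟩ := h
  have hg' := poly_of_polyTime hg
  have k1 : Poly (fun y : List Bool => (unpair y).1) := Poly.fst poly_unpair
  have k2 : Poly (fun y : List Bool => (unpair y).2) := Poly.snd poly_unpair
  have k21 : Poly (fun y : List Bool => (unpair (unpair y).2).1) := k1.comp k2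
  have k22 : Poly (fun y : List Bool => (unpair (unpair y).2).2) := k2.comp k2
  have hz : Poly (fun y : List Bool => g (pairBits (unpair (unpair y).2).1
      (pairBits (unpair y).1 (unpair (unpair y).2).2))) :=
    hg'.comp (poly_pairBits k21 (poly_pairBits k1 k22))
  have hc : Poly (fun y : List Bool =>
      decide ((unpair y).1.length ≤ p.eval (unpair (unpair y).2).1.length)) :=
    Poly.decide_le (Poly.length k1) (UPoly.toPoly (UPoly.eval (UPoly.length k21) p))
  have hc' : Poly (fun y : List Bool × List Bool =>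
      decide ((unpair y.1).1.length ≤ p.eval (unpair (unpair y.1).2).1.length)) :=
    hc.comp (Poly.fst Poly.id)
  have h1 : IsFP A (fun y => if (unpair y).1.length ≤ p.eval (unpair (unpair y).2).1.length then
      ([g (pairBits (unpair (unpair y).2).1
        (pairBits (unpair y).1 (unpair (unpair y).2).2))].map A) else []) :=
    IsFP.tt (A := A) (Q := fun y => [g (pairBits (unpair (unpair y).2).1
        (pairBits (unpair y).1 (unpair (unpair y).2).2))])
      (H := fun y => if (unpair y.1).1.length ≤ p.eval (unpair (unpair y.1).2).1.length then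
        y.2 else [])
      (Poly.cons hz (NPC.Poly.const []))
      (Poly.ite hc' (Poly.snd Poly.id) (NPC.Poly.const []))
  obtain ⟨q, hq⟩ := k1.sz_le
  obtain ⟨f, hf, hh⟩ := CP_ex hA h1
    (p.comp (q.comp (Polynomial.C 4 * Polynomial.X + Polynomial.C 1)))
  refine ⟨f, hf, fun z => ?_⟩
  rw [← hh z]
  constructor
  · rintro ⟨w, hw, hx⟩
    refine ⟨w, ?_, ?_⟩
    · refine hw.trans ?_
      rw [Polynomial.eval_comp]
      apply eval_mono
      rw [Polynomial.eval_comp]
      have h3 := length_lt_sz (unpair z).1
      refine h3.le.trans ((hq z).trans (eval_mono _ ?_))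
      have h4 := sz_listBool_le z
      simpa using h4
    · simp only [unpair_pairBits]
      rw [if_pos hw]
      have := (hR _).1 hx
      simp [this]
  · rintro ⟨w, _, hx⟩
    simp only [unpair_pairBits] at hx
    by_cases hw : w.length ≤ p.eval (unpair z).1.length
    · rw [if_pos hw] at hx
      refine ⟨w, hw, (hR _).2 ?_⟩
      simpa using hx
    · rw [if_neg hw] at hx
      exact absurd hx (by simp)

theorem CP_lvl {A : Oracle} (hA : CP_Hyp A) {V : List Bool → List Bool} (hV : IsFP A V)
    (p : Polynomial ℕ) : ∀ (k : ℕ) (b : Bool),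
    CP_Red A (fun z => Quant (p.eval (unpair z).1.length) V k b (unpair z).2) := by
  intro k
  induction k with
  | zero =>
    intro b
    have h2 : Poly (fun y : List Bool => (unpair y).2) := Poly.snd poly_unpair
    obtain ⟨f, hf, h⟩ := CP_zero hA hV h2
    refine ⟨f, hf, fun z => ?_⟩
    rw [← h z]
    simp only [Quant]
  | succ k ih =>
    intro b
    cases b with
    | true =>
      obtain ⟨f, hf, h⟩ := CP_step hA (ih false) p
      refine ⟨f, hf, fun z => ?_⟩
      rw [← h z]
      simp only [Quant, unpair_pairBits]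
    | false =>
      obtain ⟨f, hf, h⟩ := CP_compl hA (CP_step hA (CP_compl hA (ih true)) p)
      refine ⟨f, hf, fun z => ?_⟩
      rw [← h z]
      simp only [Quant, unpair_pairBits, not_exists, not_and, not_not]

theorem CP : St_CP := by
  intro A hA L hL
  obtain ⟨V, p, k, hV, hL⟩ := hL
  obtain ⟨g, hg, h⟩ := CP_lvl hA hV p k true
  have hg' := poly_of_polyTime hg
  have hd : Poly (fun x : List Bool => g (pairBits x x)) :=
    hg'.comp (poly_pairBits NPC.Poly.id NPC.Poly.id)
  refine isP_of_reduces ⟨fun x => g (pairBits x x), polyTime_of_poly_list hd, fun x => ?_⟩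
  rw [hL x]
  have := h (pairBits x x)
  simp only [unpair_pairBits] at this
  exact this

end Pool.Agent.H516R2.EQP2
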