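import Pool.Agent.H516R2.EQP2.Props
import Pool.Agent.H516R2.EQP.FI

/-!
# The theorem: diagonalisation
-/

namespace Pool.Agent.H516R2.EQP2

open Pool.Agent.NPC Pool.Agent.H620R2.Gauge Finset H568R2 Pool.Agent.H676 Pool.Agent.H516R2.EQP

/-- the invariant of the construction -/
def FIp_Inv (s : Oracle × ℕ) : Prop :=
  ∀ κ : ℕ, alpha (tl s.1) κ = 0 ∨ alpha (tl s.1) κ = 1 / 2

/-- the language given by an oracle -/
def FIp_L (A : Oracle) : Set (List Bool) := {x | alpha (tl A) x.length = 1 / 2}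

/-- the algorithm `M` does not decide the language -/
def FIp_Bad (A : Oracle) (M : Alg) : Prop :=
  ∀ V : List Bool → List Bool, (∀ x, M.out A x = some (V x)) →
    ¬ ∀ x, x ∈ FIp_L A ↔ V x = [true]

/-- the transition -/
def FIp_Next (Φ : Oracle → Oracle) (M : Alg) (s s' : Oracle × ℕ) : Prop :=
  FIp_Inv s' ∧ s.2 < s'.2 ∧ (∀ w : List Bool, w.length ≤ s.2 → s'.1 w = s.1 w) ∧
    ∀ B : Oracle, (∀ w : List Bool, w.length ≤ s'.2 → B w = s'.1 w) → FIp_Bad (Φ B) M

/-- a diagonalisation lemma -/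
theorem FIp_diag (Φ : Oracle → Oracle) (T0 : Alg)
    (hal : ∀ (κ : ℕ) (A A' : Oracle), (∀ w : List Bool, w.length = 4 + 3 * κ → A w = A' w) →
      alpha A κ = alpha A' κ)
    (h0 : FIp_Inv (baseP, 0))
    (hs : ∀ T s, FIp_Inv s → ∃ s', FIp_Next Φ T s s') :
    ∃ B : Oracle, (∀ κ, alpha (tl B) κ = 0 ∨ alpha (tl B) κ = 1 / 2) ∧
      ∀ T, FIp_Bad (Φ B) T := by
  classical
  have hc : Countable Alg := inferInstance
  have : Nonempty Alg := ⟨T0⟩
  obtain ⟨enum, henum⟩ := exists_surjective_nat Alg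
  choose! nx hnx using hs
  let st : ℕ → Oracle × ℕ := fun e => Nat.rec (baseP, 0) (fun e s => nx (enum e) s) e
  have st0 : st 0 = (baseP, 0) := rfl
  have stS : ∀ e, st (e + 1) = nx (enum e) (st e) := fun e => rfl
  have hI : ∀ e, FIp_Inv (st e) := by
    intro e
    induction e with
    | zero => rw [st0]; exact h0
    | succ e ih => rw [stS]; exact (hnx _ _ ih).1
  have hN : ∀ e, FIp_Next Φ (enum e) (st e) (st (e + 1)) := fun e => by
    rw [stS]; exact hnx _ _ (hI e)
  have hge : ∀ e, e ≤ (st e).2 := by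
    intro e
    induction e with
    | zero => exact Nat.zero_le _
    | succ e ih => have := (hN e).2.1; omega
  have hagree : ∀ e d : ℕ, (st e).2 ≤ (st (e + d)).2 ∧
      ∀ w : List Bool, w.length ≤ (st e).2 → (st (e + d)).1 w = (st e).1 w := by
    intro e d
    induction d with
    | zero => exact ⟨le_rfl, fun w _ => rfl⟩
    | succ d ih =>
      have h1 := hN (e + d)
      refine ⟨ih.1.trans h1.2.1.le, fun w hw => ?_⟩
      rw [← ih.2 w hw]
      exact h1.2.2.1 w (hw.trans ih.1)
  let B : Oracle := fun w => (st w.length).1 w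
  have hB : ∀ e, ∀ w : List Bool, w.length ≤ (st e).2 → B w = (st e).1 w := by
    intro e w hw
    rcases le_total w.length e with h | h
    · obtain ⟨d, rfl⟩ := Nat.exists_eq_add_of_le h
      exact ((hagree w.length d).2 w (hge _)).symm
    · obtain ⟨d, hd⟩ := Nat.exists_eq_add_of_le h
      show (st w.length).1 w = _
      rw [hd]
      exact (hagree e d).2 w hw
  refine ⟨B, fun κ => ?_, fun T => ?_⟩
  · have h1 : alpha (tl B) κ = alpha (tl (st (6 + 3 * κ)).1) κ := by
      apply hal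
      intro w hw
      refine hB (6 + 3 * κ) (false :: false :: w) ?_
      have h2 := hge (6 + 3 * κ)
      simp only [List.length_cons]
      omega
    rw [h1]
    exact hI _ κ
  · obtain ⟨e, rfl⟩ := henum T
    exact (hN e).2.2.2 B (hB (e + 1))

theorem FIp_tl_eq {κ : ℕ} {B : Oracle} {a : Cube κ → Bool} {w : List Bool}
    (hw : w.length = 4 + 3 * κ) : tl (embP κ B a) w = emb κ B a w := by
  unfold tl embP
  rw [if_pos]
  · rfl
  · refine ⟨rfl, ?_⟩
    simp only [List.length_cons]
    omega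

theorem FIp_tl_ne {κ : ℕ} {B : Oracle} {a : Cube κ → Bool} {w : List Bool}
    (hw : w.length ≠ 4 + 3 * κ) : tl (embP κ B a) w = tl B w := by
  unfold tl embP
  rw [if_neg]
  rintro ⟨_, h⟩
  simp only [List.length_cons] at h
  omega

/-- one step of the construction -/
theorem FIp_step (hal : St_AL) (hlo : St_LO) (hgo : St_GO) (h2 : St_H2p)
    (Φ : Oracle → Oracle) (hΦ : ∀ w, Node Φ w)
    (hpre : ∀ B w, Φ B (false :: false :: w) = B (false :: false :: w))
    (M : Alg) (s : Oracle × ℕ) (hs : FIp_Inv s) : ∃ s', FIp_Next Φ M s s' := by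
  obtain ⟨B, n⟩ := s
  obtain ⟨hal1, -, hal3⟩ := hal
  have hs2 : ∀ κ : ℕ, alpha (tl B) κ = 0 ∨ alpha (tl B) κ = 1 / 2 := hs
  obtain ⟨J, P, κ₁, hκ₁⟩ := hgo Φ hΦ M
  obtain ⟨κ₀, hκ₀⟩ := h2 J P
  let κ : ℕ := κ₀ + κ₁ + n
  have hκ0 : κ ≥ κ₀ := by omega
  have hκ1 : κ ≥ κ₁ := by omega
  have hκn : n ≤ κ := by omega
  let x : List Bool := List.replicate κ true
  have hx : x.length = κ := List.length_replicate
  let h : (Cube κ → Bool) → Bool := fun a => decide (M.out (Φ (embP κ B a)) x = some [true])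
  obtain ⟨hP1, hP2⟩ := hκ₁ κ hκ1
  have hH := hκ₀ κ hκ0 hP1 h (fun c => hP2 B x c hx)
  obtain ⟨qb, hqb⟩ := M.out_local
  have htl : ∀ a : Cube κ → Bool, alpha (tl (embP κ B a)) κ = alpha (emb κ B a) κ := by
    intro a
    apply hal1
    intro w hw
    exact FIp_tl_eq hw
  -- the value of alpha at the new instance
  have hY : ∀ a : Cube κ → Bool, Yes a → alpha (tl (embP κ B a)) κ = 1 / 2 := by
    intro a ha
    rw [htl, hal3]
    have h3 : (2 * 8 ^ κ + 5 * FF (fun i => a (Sum.inl i)) + SS (fun w => a (Sum.inr w)) : ℤ) =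
        4 * 8 ^ κ := by
      unfold Yes at ha
      linarith
    rw [h3]
    push_cast
    rw [pow_succ]
    have h4 : (8 : ℝ) ^ κ ≠ 0 := by positivity
    field_simp
    norm_num
  have hN : ∀ a : Cube κ → Bool, No a → alpha (tl (embP κ B a)) κ = 0 := by
    intro a ha
    rw [htl, hal3]
    have h3 : (2 * 8 ^ κ + 5 * FF (fun i => a (Sum.inl i)) + SS (fun w => a (Sum.inr w)) : ℤ) =
        0 := by
      unfold No at ha
      linarith
    rw [h3]
    simp
  have main : ∀ a : Cube κ → Bool, (Yes a ∧ h a = false ∨ No a ∧ h a = true) →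
      FIp_Next Φ M (B, n) (embP κ B a, n + 1 + (6 + 3 * κ) + qb.eval κ) := by
    intro a ha
    refine ⟨?_, ?_, ?_, ?_⟩
    · intro κ'
      show alpha (tl (embP κ B a)) κ' = 0 ∨ alpha (tl (embP κ B a)) κ' = 1 / 2
      by_cases h3 : κ' = κ
      · subst h3
        rcases ha with ha | ha
        · exact Or.inr (hY a ha.1)
        · exact Or.inl (hN a ha.1)
      · have h4 : alpha (tl (embP κ B a)) κ' = alpha (tl B) κ' := by
          apply hal1
          intro w hw
          exact FIp_tl_ne (by omega)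
        rw [h4]
        exact hs2 κ'
    · show n < n + 1 + (6 + 3 * κ) + qb.eval κ
      omega
    · intro w hw
      have hw' : w.length ≤ n := hw
      show embP κ B a w = B w
      unfold embP
      rw [if_neg]
      rintro ⟨_, h3⟩
      omega
    · intro B' hB' V hV hL
      have hB'' : ∀ w : List Bool, w.length ≤ n + 1 + (6 + 3 * κ) + qb.eval κ →
          B' w = embP κ B a w := hB'
      -- the oracles agree on short strings
      have hagree : ∀ w : List Bool, w.length ≤ n + 1 + (6 + 3 * κ) + qb.eval κ →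
          Φ B' w = Φ (embP κ B a) w := by
        intro w hw
        exact hlo Φ hΦ B' (embP κ B a) w (fun z hz => hB'' z (hz.trans hw))
      have hout : M.out (Φ B') x = M.out (Φ (embP κ B a)) x := by
        obtain ⟨Q, -, hQ2, hQ3⟩ := hqb (Φ (embP κ B a)) x
        apply hQ3
        intro q hq
        apply hagree
        have h4 := hQ2 q hq
        rw [hx] at h4
        omega
      have hmem : x ∈ FIp_L (Φ B') ↔ alpha (tl (embP κ B a)) κ = 1 / 2 := by
        show alpha (tl (Φ B')) x.length = 1 / 2 ↔ _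
        rw [hx, hal1 κ (tl (Φ B')) (tl (embP κ B a))]
        intro w hw
        show Φ B' (false :: false :: w) = embP κ B a (false :: false :: w)
        rw [hpre]
        apply hB''
        simp only [List.length_cons]
        omega
      have hLx := hL x
      rw [hmem] at hLx
      have hVx := hV x
      rw [hout] at hVx
      rcases ha with ⟨ha1, ha2⟩ | ⟨ha1, ha2⟩
      · have h3 := hLx.1 (hY a ha1)
        rw [h3] at hVx
        have h4 : h a = true := by
          show decide (M.out (Φ (embP κ B a)) x = some [true]) = true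
          rw [hVx]
          rfl
        rw [h4] at ha2
        exact absurd ha2 (by decide)
      · have h4 : M.out (Φ (embP κ B a)) x = some [true] := of_decide_eq_true ha2
        rw [h4] at hVx
        have h3 := hLx.2 (Option.some.inj hVx).symm
        rw [hN a ha1] at h3
        norm_num at h3
  rcases hH with ⟨a, ha⟩ | ⟨a, ha⟩
  · exact ⟨_, main a (Or.inl ha)⟩
  · exact ⟨_, main a (Or.inr ha)⟩

/-- the theorem -/
theorem FIp (hqf : St_QF) (hal : St_AL) (hqp : St_QP) (hco : St_CO) (hlo : St_LO) (hcp : St_CP)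
    (hgo : St_GO) (h2 : St_H2p) : St_FIp := by
  obtain ⟨Φ, hΦ, hpre, hred⟩ := hco
  have hbase : FIp_Inv (baseP, 0) := by
    intro κ
    left
    show alpha (tl baseP) κ = 0
    rw [hal.1 κ (tl baseP) base, hal.2.1 κ]
    intro w _
    rfl
  obtain ⟨B, hB1, hB2⟩ := FIp_diag Φ (⟨fun x => x, polyTime_id, 0⟩ : Alg) hal.1 hbase
    (fun T s hs => FIp_step hal hlo hgo h2 Φ hΦ hpre T s hs)
  have htl : tl (Φ B) = tl B := by
    funext w
    exact hpre B w
  have hA1 : ∀ κ, alpha (tl (Φ B)) κ = 0 ∨ alpha (tl (Φ B)) κ = 1 / 2 := by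
    intro κ
    rw [htl]
    exact hB1 κ
  refine ⟨Φ B, FIp_L (Φ B), fun L' => ⟨fun h => ?_, fun h => h.isPH⟩,
    ⟨fun x => circP x.length, hqp.2.1, fun x => ⟨(hqp.2.2 _).le, ?_, ?_⟩⟩, ?_⟩
  · refine hcp (Φ B) (fun M p => ?_) L' h
    obtain ⟨g, hg, hg'⟩ := hred M p
    exact ⟨g, hg, fun x => hg' B x⟩
  · intro hx
    rw [hqp.1, hqf]
    have h3 : alpha (tl (Φ B)) x.length = 1 / 2 := hx
    rw [h3]
    norm_num
  · intro hx
    rw [hqp.1, hqf]
    have h3 : alpha (tl (Φ B)) x.length = 0 := (hA1 _).resolve_right hx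
    rw [h3]
    norm_num
  · rintro ⟨V, ⟨M, hM⟩, hL⟩
    exact hB2 M V hM hL

end Pool.Agent.H516R2.EQP2
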