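import Pool.Agent.H516R2.EQP2.Props
import Pool.Agent.H516R2.EQP.DE

/-! Oracle algorithms relative to the coded oracle are good functions of the instance -/

namespace Pool.Agent.H516R2.EQP2

open Pool.Agent.NPC Pool.Agent.H620R2.Gauge Finset H568R2 Pool.Agent.H676 Pool.Agent.H516R2.EQP

/-- polynomials are bounded by powers -/
theorem GO_poly (p : Polynomial ℕ) : ∃ C d : ℕ, ∀ n : ℕ, p.eval n ≤ C * (n + 1) ^ d := by
  induction p using Polynomial.induction_on' with
  | add p q hp hq =>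
    obtain ⟨C1, d1, h1⟩ := hp
    obtain ⟨C2, d2, h2⟩ := hq
    refine ⟨C1 + C2, d1 + d2, fun n => ?_⟩
    rw [Polynomial.eval_add, add_mul]
    have h3 : (n + 1) ^ d1 ≤ (n + 1) ^ (d1 + d2) := Nat.pow_le_pow_right (by omega) (by omega)
    have h4 : (n + 1) ^ d2 ≤ (n + 1) ^ (d1 + d2) := Nat.pow_le_pow_right (by omega) (by omega)
    exact add_le_add ((h1 n).trans (Nat.mul_le_mul_left _ h3))
      ((h2 n).trans (Nat.mul_le_mul_left _ h4))
  | monomial k a =>
    refine ⟨a, k, fun n => ?_⟩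
    rw [Polynomial.eval_monomial]
    exact Nat.mul_le_mul_left _ (Nat.pow_le_pow_left (by omega) _)

theorem GO_exists_J (p : Polynomial ℕ) : ∃ J : ℕ, ∀ n : ℕ, p.eval n ≤ (5 + 3 * n) ^ 2 ^ J := by
  obtain ⟨C, d, h⟩ := GO_poly p
  refine ⟨C + d, fun n => (h n).trans ?_⟩
  have h1 : C + d ≤ 2 ^ (C + d) := (Nat.lt_two_pow_self).le
  have h2 : C ≤ (5 + 3 * n) ^ C :=
    (Nat.lt_two_pow_self).le.trans (Nat.pow_le_pow_left (by omega) _)
  have h3 : (n + 1) ^ d ≤ (5 + 3 * n) ^ d := Nat.pow_le_pow_left (by omega) _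
  calc C * (n + 1) ^ d ≤ (5 + 3 * n) ^ C * (5 + 3 * n) ^ d := Nat.mul_le_mul h2 h3
    _ = (5 + 3 * n) ^ (C + d) := by rw [pow_add]
    _ ≤ (5 + 3 * n) ^ 2 ^ (C + d) := Nat.pow_le_pow_right (by omega) h1

/-- every bit of the oracle is a decision tree of depth one -/
theorem GO_bit {I : Type} [Fintype I] [DecidableEq I] (κ : ℕ) (B : Oracle)
    (φ : (I → Bool) → Cube κ → Bool) (hφ : ∀ i, DTr 1 (fun a => φ a i)) (w : List Bool) :
    DTr 1 (fun a => embP κ B (φ a) w) := by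
  unfold embP
  by_cases h : w.take 2 = [false, false] ∧ w.length = 6 + 3 * κ
  · simp only [if_pos h]
    rcases DE_form κ B (w.drop 2) with ⟨c, hc⟩ | ⟨i, c, hc⟩
    · exact DTr.const ⟨c, fun a => hc _⟩
    · have h1 := (hφ i).comp (fun b => c ^^ b)
      refine (congrArg (DTr 1) (funext fun a => ?_)).mp h1
      exact (hc _).symm
  · simp only [if_neg h]
    exact DTr.const ⟨B w, fun a => rfl⟩

/-- the parameters -/
noncomputable def GO_l (J : ℕ) : Polynomial ℕ :=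
  (Polynomial.C 5 + Polynomial.C 3 * Polynomial.X) ^ 2 ^ J

noncomputable def GO_t (J : ℕ) : Polynomial ℕ :=
  GO_l J + Polynomial.C 4 * Polynomial.X + Polynomial.C (J + 1)

theorem GO_l_eval (J κ : ℕ) : (GO_l J).eval κ = (5 + 3 * κ) ^ 2 ^ J := by
  simp [GO_l]

theorem GO_t_eval (J κ : ℕ) : (GO_t J).eval κ = (5 + 3 * κ) ^ 2 ^ J + 4 * κ + (J + 1) := by
  simp only [GO_t, Polynomial.eval_add, Polynomial.eval_mul, Polynomial.eval_C,
    Polynomial.eval_X, GO_l_eval]

/-- the arithmetic of the bound -/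
theorem GO_arith (J κ l t m : ℕ) (hl : 1 ≤ l) (ht : t = l + 4 * κ + (J + 1)) :
    (J : ℝ) * 2 ^ (l + 1) * (12 * ((t : ℝ) * l) *
      (1 / (24 * ((t * (l + m) : ℕ) : ℝ)))) ^ (t + 1) ≤ (1 / 16) ^ κ := by
  have hl' : (0 : ℝ) < l := by exact_mod_cast hl
  have ht' : (0 : ℝ) < t := by
    have : 0 < t := by omega
    exact_mod_cast this
  have hm : (0 : ℝ) ≤ m := Nat.cast_nonneg m
  have h1 : 12 * ((t : ℝ) * l) * (1 / (24 * ((t * (l + m) : ℕ) : ℝ))) ≤ 1 / 2 := by
    push_cast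
    have hlm : (0 : ℝ) < l + m := by linarith
    rw [mul_one_div, div_le_iff₀ (by positivity)]
    nlinarith [mul_nonneg ht'.le hm]
  have h0 : 0 ≤ 12 * ((t : ℝ) * l) * (1 / (24 * ((t * (l + m) : ℕ) : ℝ))) := by positivity
  have h2 : (12 * ((t : ℝ) * l) * (1 / (24 * ((t * (l + m) : ℕ) : ℝ)))) ^ (t + 1) ≤
      (1 / 2) ^ (t + 1) := pow_le_pow_left₀ h0 h1 _
  have h3 : (J : ℝ) ≤ 2 ^ (J + 1) := by
    have : J ≤ 2 ^ (J + 1) := (Nat.lt_two_pow_self).le.trans
      (Nat.pow_le_pow_right (by norm_num) (by omega))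
    exact_mod_cast this
  have h4 : (J : ℝ) * 2 ^ (l + 1) * (1 / 2) ^ (t + 1) ≤
      2 ^ (J + 1) * 2 ^ (l + 1) * (1 / 2) ^ (t + 1) := by
    gcongr
  refine (mul_le_mul_of_nonneg_left h2 (by positivity)).trans (h4.trans (le_of_eq ?_))
  have h5 : t + 1 = (J + 1) + (l + 1) + 4 * κ := by omega
  have e0 : ((1 : ℝ) / 2) ^ (t + 1) =
      (1 / 2) ^ (J + 1) * (1 / 2) ^ (l + 1) * ((1 / 2) ^ 4) ^ κ := by
    rw [h5, pow_add, pow_add, pow_mul]
  rw [e0]
  have e1 : ((2 : ℝ)) ^ (J + 1) * (1 / 2) ^ (J + 1) = 1 := by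
    rw [← mul_pow]; norm_num
  have e2 : ((2 : ℝ)) ^ (l + 1) * (1 / 2) ^ (l + 1) = 1 := by
    rw [← mul_pow]; norm_num
  have e3 : ((1 : ℝ) / 2) ^ 4 = 1 / 16 := by norm_num
  rw [e3]
  calc (2 : ℝ) ^ (J + 1) * 2 ^ (l + 1) * ((1 / 2) ^ (J + 1) * (1 / 2) ^ (l + 1) * (1 / 16) ^ κ)
      = (2 ^ (J + 1) * (1 / 2) ^ (J + 1)) * (2 ^ (l + 1) * (1 / 2) ^ (l + 1)) * (1 / 16) ^ κ := by
        ring
    _ = (1 / 16) ^ κ := by rw [e1, e2]; ring

open Classical in
theorem GO_main (hrt : St_RT) (hsw : St_SW) (Φ : Oracle → Oracle) (hΦ : ∀ w, Node Φ w) (M : Alg)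
    (qb : Polynomial ℕ) (hqb : ∀ (A : Oracle) (x : List Bool),
    ∃ Q : Finset (List Bool), Q.card ≤ M.p.eval x.length ∧
      (∀ q ∈ Q, q.length ≤ qb.eval x.length) ∧
      ∀ A' : Oracle, (∀ q ∈ Q, A' q = A q) → M.out A' x = M.out A x)
    (J : ℕ) (hJ : ∀ n : ℕ, qb.eval n ≤ (5 + 3 * n) ^ 2 ^ J) (κ : ℕ) (B : Oracle) (x : List Bool)
    (hx : x.length = κ) {I : Type} [Fintype I] [DecidableEq I]
    (φ : (I → Bool) → Cube κ → Bool) (hφ : ∀ i, DTr 1 (fun a => φ a i)) :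
    Ex (wq ((1 / (24 * (((GO_t J * (GO_l J + M.p)).eval κ : ℕ) : ℝ))) ^ J))
      (fun ρ : Restr I => if ¬ DTr ((GO_t J * (GO_l J + M.p)).eval κ) (fun a =>
        decide (M.out (Φ (embP κ B (φ (ov ρ a)))) x = some [true])) then (1 : ℝ) else 0) ≤
      (1 / 16) ^ κ := by
  set l : ℕ := (5 + 3 * κ) ^ 2 ^ J with hl
  set t : ℕ := l + 4 * κ + (J + 1) with ht
  have hl1 : 1 ≤ l := Nat.one_le_pow _ _ (by omega)
  have hP : (GO_t J * (GO_l J + M.p)).eval κ = t * (l + M.p.eval κ) := by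
    rw [Polynomial.eval_mul, Polynomial.eval_add, GO_t_eval, GO_l_eval]
  rw [hP]
  set T : ℕ := t * (l + M.p.eval κ) with hT
  have hT1 : 1 ≤ T := Nat.one_le_iff_ne_zero.2 (Nat.mul_ne_zero (by omega) (by omega))
  have hT' : (1 : ℝ) ≤ T := by exact_mod_cast hT1
  set q : ℝ := 1 / (24 * (T : ℝ)) with hq
  have hq0 : 0 ≤ q := by positivity
  have hq1 : q ≤ 1 / 3 := by
    rw [hq, div_le_div_iff₀ (by positivity) (by norm_num)]
    linarith
  have hqJ0 : 0 ≤ q ^ J := pow_nonneg hq0 _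
  have hqJ1 : q ^ J ≤ 1 := pow_le_one₀ hq0 (by linarith)
  have key := hsw Φ hΦ I (fun a => embP κ B (φ a)) (5 + 3 * κ) t l J q ?_ ?_ (by omega)
    (by omega) hq0 hq1 (le_of_eq hl.symm)
  · refine (le_trans ?_ key).trans (GO_arith J κ l t (M.p.eval κ) hl1 ht)
    refine Ex_mono (wq_nonneg hqJ0 hqJ1) fun ρ => ?_
    by_cases h : ∀ w : List Bool, w.length ≤ (5 + 3 * κ) ^ 2 ^ J →
        DTr t (fun a => Φ ((fun a => embP κ B (φ a)) (ov ρ a)) w)
    · have h1 : DTr T (fun a => decide (M.out (Φ (embP κ B (φ (ov ρ a)))) x = some [true])) := by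
        have h2 := hrt I (fun a z => if z.length ≤ l then Φ (embP κ B (φ (ov ρ a))) z else false)
          M x t (fun z => by
            by_cases hz : z.length ≤ l
            · simp only [if_pos hz]
              exact h z hz
            · simp only [if_neg hz]
              exact DTr.const ⟨false, fun _ => rfl⟩)
        have h3 : (fun a => decide (M.out ((fun (a : I → Bool) (z : List Bool) =>
            if z.length ≤ l then Φ (embP κ B (φ (ov ρ a))) z else false) a) x = some [true])) =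
            (fun a => decide (M.out (Φ (embP κ B (φ (ov ρ a)))) x = some [true])) := by
          funext a
          obtain ⟨Q, -, hQ, hQ'⟩ := hqb (Φ (embP κ B (φ (ov ρ a)))) x
          have h4 := hQ' (fun z => if z.length ≤ l then Φ (embP κ B (φ (ov ρ a))) z else false)
            (fun z hz => by
              have h5 : z.length ≤ l := by
                have := hQ z hz
                rw [hx] at this
                exact this.trans (hJ κ)
              simp only [if_pos h5])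
          simp only [h4]
        rw [h3] at h2
        refine h2.mono ?_
        rw [hx, hT]
        exact Nat.mul_le_mul_left _ (by omega)
      rw [if_neg (not_not.2 h1), if_neg (not_not.2 h)]
    · rw [if_pos h]
      split_ifs <;> norm_num
  · intro w hw a a'
    have h : ¬ (w.take 2 = [false, false] ∧ w.length = 6 + 3 * κ) := by
      rintro ⟨-, h⟩
      omega
    simp only [embP, if_neg h]
  · intro w
    exact GO_bit κ B φ hφ w

theorem GO (_hlo : St_LO) (hrt : St_RT) (hsw : St_SW) : St_GO := by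
  intro Φ hΦ M
  obtain ⟨qb, hqb⟩ := Alg.out_local M
  obtain ⟨J, hJ⟩ := GO_exists_J qb
  refine ⟨J, GO_t J * (GO_l J + M.p), 0, fun κ _ => ⟨?_, fun B x c hx => ⟨?_, ?_⟩⟩⟩
  · rw [Polynomial.eval_mul, Polynomial.eval_add, GO_t_eval, GO_l_eval]
    have h1 : 1 ≤ (5 + 3 * κ) ^ 2 ^ J := Nat.one_le_pow _ _ (by omega)
    exact Nat.one_le_iff_ne_zero.2 (Nat.mul_ne_zero (by omega) (by omega))
  · intro z ρ₀
    exact GO_main hrt hsw Φ hΦ M qb hqb J hJ κ B x hx
      (fun p i => Sum.elim (ov ρ₀ p) z i ^^ c i) (fun i => by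
        rcases i with j | j
        · simp only [Sum.elim_inl]
          cases hρ : ρ₀ j with
          | none =>
            refine Or.inr ⟨j, fun b => ⟨b ^^ c (Sum.inl j), fun a => ?_⟩⟩
            simp [ov, hρ]
          | some b =>
            refine DTr.const ⟨b ^^ c (Sum.inl j), fun a => ?_⟩
            simp [ov, hρ]
        · exact DTr.const ⟨z j ^^ c (Sum.inr j), fun a => rfl⟩)
  · intro p
    exact GO_main hrt hsw Φ hΦ M qb hqb J hJ κ B x hx
      (fun z i => Sum.elim p z i ^^ c i) (fun i => by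
        rcases i with j | j
        · exact DTr.const ⟨p j ^^ c (Sum.inl j), fun a => rfl⟩
        · refine Or.inr ⟨j, fun b => ⟨b ^^ c (Sum.inr j), fun a => ?_⟩⟩
          simp)

end Pool.Agent.H516R2.EQP2
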