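import Pool.Agent.H516R2.EQP2.Props
import Pool.Agent.H516R2.EQP.H2

/-! # Every good function errs -/

namespace Pool.Agent.H516R2.EQP2

open Pool.Agent.NPC Pool.Agent.H620R2.Gauge Finset H568R2 Pool.Agent.H676 Pool.Agent.H516R2.EQP

/-- goodness is invariant under negation -/
theorem H2p_not {κ t J : ℕ} {h : (Cube κ → Bool) → Bool} (hg : Good κ t J h) :
    Good κ t J (fun a => !h a) := by
  classical
  obtain ⟨h1, h2⟩ := hg
  have hiff : ∀ {I : Type} [Fintype I] [DecidableEq I] (g : (I → Bool) → Bool),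
      DTr t (fun a => !g a) ↔ DTr t g := by
    intro I _ _ g
    refine ⟨fun h => ?_, fun h => DTr.comp (fun b => !b) h⟩
    have h' := DTr.comp (fun b => !b) h
    simpa using h'
  refine ⟨fun z ρ₀ => ?_, fun p => ?_⟩
  · refine le_trans (le_of_eq ?_) (h1 z ρ₀)
    congr 1
    funext ρ
    have h3 : DTr t (rs (rs (fun p => !h (Sum.elim p z)) ρ₀) ρ) ↔
        DTr t (rs (rs (fun p => h (Sum.elim p z)) ρ₀) ρ) :=
      hiff (rs (rs (fun p => h (Sum.elim p z)) ρ₀) ρ)
    simp only [h3]
  · refine le_trans (le_of_eq ?_) (h2 p)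
    congr 1
    funext ρ
    have h3 : DTr t (rs (fun z => !h (Sum.elim p z)) ρ) ↔
        DTr t (rs (fun z => h (Sum.elim p z)) ρ) :=
      hiff (rs (fun z => h (Sum.elim p z)) ρ)
    simp only [h3]

theorem H2p (h1 : St_H1p) : St_H2p := by
  intro J p
  obtain ⟨κ₀, h0⟩ := h1 J p
  refine ⟨κ₀, fun κ hκ hp h hg => ?_⟩
  by_contra hcon
  rw [not_or] at hcon
  obtain ⟨hy, hn⟩ := hcon
  have hy' : ∀ a, Yes a → h a = true := by
    intro a ha
    by_contra h'
    exact hy ⟨a, ha, by simpa using h'⟩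
  have hn' : ∀ a, No a → h a = false := by
    intro a ha
    by_contra h'
    exact hn ⟨a, ha, by simpa using h'⟩
  have g0 : Good κ (p.eval κ) J h := by
    have := hg (fun _ => false)
    simpa using this
  have e1 := h0 κ hκ hp h g0 hy'
  have g1 : Good κ (p.eval κ) J (fun a => !h (H2_e a)) := H2p_not (hg H2_c)
  have e2 := h0 κ hκ hp (fun a => !h (H2_e a)) g1 (fun a ha => by
    have h3 : h (H2_e a) = false := hn' _ (H2_yes a ha)
    rw [h3]; rfl)
  have e3 : av (br (fun a => !h (H2_e a))) = 1 - av (br h) := by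
    have e4 : br (fun a => !h (H2_e a)) = fun a => 1 - br h (H2_e a) := by
      funext a
      change (if (!h (H2_e a)) = true then (1 : ℝ) else 0) =
        1 - if h (H2_e a) = true then (1 : ℝ) else 0
      cases hh : h (H2_e a) <;> simp
    rw [e4]
    exact H2_av _ _
  rw [e3] at e2
  linarith

end Pool.Agent.H516R2.EQP2
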