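import Pool.Agent.H516R2.EQP2.Props

/-! Task L2p: second level Fourier weight of functions which simplify under restrictions
(adapted from `EQP/L2.lean` by helper153). -/

namespace Pool.Agent.H516R2.EQP2

open Pool.Agent.NPC Pool.Agent.H620R2.Gauge Finset H568R2 Pool.Agent.H676 Pool.Agent.H516R2.EQP

section

variable {I : Type*} [Fintype I] [DecidableEq I]

private lemma L2p_av_abs {f : (I → Bool) → ℝ} {c : ℝ} (h : ∀ x, |f x| ≤ c) : |av f| ≤ c := by
  unfold av
  rw [abs_div, abs_of_pos (by positivity : (0:ℝ) < 2 ^ Fintype.card I), div_le_iff₀ (by positivity)]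
  calc |∑ x, f x| ≤ ∑ x, |f x| := Finset.abs_sum_le_sum_abs _ _
    _ ≤ ∑ _x : I → Bool, c := Finset.sum_le_sum fun x _ => h x
    _ = c * 2 ^ Fintype.card I := by
      rw [Finset.sum_const, Finset.card_univ, Fintype.card_fun, Fintype.card_bool, nsmul_eq_mul]
      push_cast
      ring

omit [DecidableEq I] in
private lemma L2p_ch_abs (S x : I → Bool) : |ch S x| ≤ 1 := by
  unfold ch
  rw [Finset.abs_prod]
  apply Finset.prod_le_one (fun i _ => abs_nonneg _)
  intro i _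
  split_ifs <;> simp

private lemma L2p_co_abs (f : (I → Bool) → Bool) (S : I → Bool) : |co (br f) S| ≤ 1 := by
  unfold co
  apply L2p_av_abs
  intro x
  rw [abs_mul]
  have h1 : |br f x| ≤ 1 := by unfold br; split_ifs <;> simp
  exact mul_le_one₀ h1 (abs_nonneg _) (L2p_ch_abs S x)

private lemma L2p_loc (Q : ℝ) (u t : Bool) :
    ∑ o, wq Q o * loc u t o = if u = t then (if t then Q else 1) else 0 := by
  rw [Fintype.sum_option, Fintype.sum_bool]
  unfold wq loc
  cases u <;> cases t <;> simp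

private lemma L2p_Ex_co (g : (I → Bool) → ℝ) (S : I → Bool) (Q : ℝ) :
    Ex (wq Q) (fun τ : Restr I => co (rr g τ) S) = Q ^ wt S * co g S := by
  have h1 : (fun τ : Restr I => co (rr g τ) S) =
      fun τ => ∑ U : I → Bool, co g U * ∏ i, loc (U i) (S i) (τ i) := by
    funext τ
    exact co_rr g S τ
  rw [h1, Ex_sum]
  have h2 : ∀ U : I → Bool, Ex (wq Q) (fun τ : Restr I => co g U * ∏ i, loc (U i) (S i) (τ i)) =
      if U = S then Q ^ wt S * co g S else 0 := by
    intro U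
    rw [Ex_smul]
    have h3 : Ex (wq Q) (fun τ : Restr I => ∏ i, loc (U i) (S i) (τ i)) =
        ∏ i, (if U i = S i then (if S i then Q else 1) else 0) := by
      unfold Ex
      have h4 : ∀ τ : Restr I, (∏ i, wq Q (τ i)) * ∏ i, loc (U i) (S i) (τ i) =
          ∏ i, (wq Q (τ i) * loc (U i) (S i) (τ i)) := fun τ => Finset.prod_mul_distrib.symm
      rw [Finset.sum_congr rfl fun τ _ => h4 τ]
      rw [sum_prodO (fun i o => wq Q o * loc (U i) (S i) o)]
      exact Finset.prod_congr rfl fun i _ => L2p_loc Q (U i) (S i)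
    rw [h3]
    by_cases h : U = S
    · subst h
      rw [if_pos rfl, pow_wt, mul_comm]
      congr 1
      exact Finset.prod_congr rfl fun i _ => if_pos rfl
    · rw [if_neg h]
      obtain ⟨i, hi⟩ := Function.ne_iff.1 h
      rw [Finset.prod_eq_zero (Finset.mem_univ i) (if_neg hi), mul_zero]
  rw [Finset.sum_congr rfl fun U _ => h2 U, Finset.sum_ite_eq' Finset.univ S]
  simp

private lemma L2p_Ex_abs {A : Type*} [Fintype A] {w : A → ℝ} (hw : ∀ a, 0 ≤ w a) (F : (I → A) → ℝ) :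
    |Ex w F| ≤ Ex w (fun ω => |F ω|) := by
  unfold Ex
  refine (Finset.abs_sum_le_sum_abs _ _).trans (le_of_eq ?_)
  apply Finset.sum_congr rfl
  intro ω _
  rw [abs_mul, abs_of_nonneg (Finset.prod_nonneg fun i _ => hw _)]

end

section

variable {V : Type} [Fintype V] [DecidableEq V]

private lemma L2p_wt (i j : V) : wt (pr (Sum.inl i : V ⊕ V) (Sum.inr j)) = 2 := by
  unfold wt pr
  have h : (Finset.univ.filter (fun k : V ⊕ V => decide (k = Sum.inl i ∨ k = Sum.inr j) = true))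
      = {Sum.inl i, Sum.inr j} := by
    ext k
    simp
  rw [h, Finset.card_pair (by simp)]

private lemma L2p_L12_card (f : (V ⊕ V → Bool) → Bool) : L12 (br f) ≤ (Fintype.card V : ℝ) ^ 2 := by
  unfold L12
  calc ∑ i : V, ∑ j : V, |co (br f) (pr (Sum.inl i) (Sum.inr j))| ≤ ∑ _i : V, ∑ _j : V, (1 : ℝ) :=
        Finset.sum_le_sum fun i _ => Finset.sum_le_sum fun j _ => L2p_co_abs f _
    _ = (Fintype.card V : ℝ) ^ 2 := by
      simp [sq]

end

theorem L2p (h1 : St_L1) : St_L2p := by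
  intro V _ _ t Q ε h hQ0 hQ1 hε hsw ρ
  classical
  have hg : rr (br h) ρ = br (rs h ρ) := rr_br h ρ
  rw [hg]
  set g := br (rs h ρ) with hgdef
  have hw : ∀ a, 0 ≤ wq Q a := wq_nonneg hQ0.le hQ1
  have hA : Q ^ 2 * L12 g ≤ Ex (wq Q) (fun τ : Restr (V ⊕ V) => L12 (rr g τ)) := by
    unfold L12
    rw [Ex_sum, Finset.mul_sum]
    apply Finset.sum_le_sum
    intro i _
    rw [Ex_sum, Finset.mul_sum]
    apply Finset.sum_le_sum
    intro j _
    refine le_trans (le_of_eq ?_) (L2p_Ex_abs hw _)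
    rw [L2p_Ex_co, L2p_wt, abs_mul, abs_of_nonneg (sq_nonneg Q)]
  set bad : Restr (V ⊕ V) → ℝ := fun τ => if ¬ DTr t (rs (rs h ρ) τ) then (1 : ℝ) else 0 with hbad
  have hB : Ex (wq Q) (fun τ : Restr (V ⊕ V) => L12 (rr g τ)) ≤
      Ex (wq Q) (fun τ : Restr (V ⊕ V) => (t : ℝ) ^ 2 + (Fintype.card V : ℝ) ^ 2 * bad τ) := by
    apply Ex_mono hw
    intro τ
    by_cases hd : DTr t (rs (rs h ρ) τ)
    · have e : bad τ = 0 := if_neg (not_not.2 hd)
      rw [e, mul_zero, add_zero, hgdef, rr_br]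
      exact h1 V t _ hd
    · have e : bad τ = 1 := if_pos hd
      rw [e, mul_one, hgdef, rr_br]
      have := L2p_L12_card (rs (rs h ρ) τ)
      have h2 : (0 : ℝ) ≤ (t : ℝ) ^ 2 := sq_nonneg _
      linarith
  have hC : Ex (wq Q) (fun τ : Restr (V ⊕ V) => (t : ℝ) ^ 2 + (Fintype.card V : ℝ) ^ 2 * bad τ) ≤
      (t : ℝ) ^ 2 + ε * (Fintype.card V : ℝ) ^ 2 := by
    rw [Ex_add, Ex_const (wq_sum Q), Ex_smul]
    have h2 : Ex (wq Q) bad ≤ ε := by
      have := hsw ρ
      rw [hbad]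
      convert this
    have h3 : (0 : ℝ) ≤ (Fintype.card V : ℝ) ^ 2 := sq_nonneg _
    nlinarith [mul_le_mul_of_nonneg_left h2 h3]
  have hD := hA.trans (hB.trans hC)
  have e : (1 / Q) ^ 2 * ((t : ℝ) ^ 2 + ε * (Fintype.card V : ℝ) ^ 2) =
      ((t : ℝ) ^ 2 + ε * (Fintype.card V : ℝ) ^ 2) / Q ^ 2 := by
    field_simp
  rw [e, le_div_iff₀ (by positivity)]
  linarith

end Pool.Agent.H516R2.EQP2
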