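import Pool.Agent.H516R2.EQP2.Props

/-! # Task LO: locality of the coding -/

namespace Pool.Agent.H516R2.EQP2

open Pool.Agent.NPC Pool.Agent.H620R2.Gauge Finset H568R2 Pool.Agent.H676 Pool.Agent.H516R2.EQP

theorem LO : St_LO := by
  intro Φ hΦ
  have key : ∀ (n : ℕ) (w : List Bool), w.length = n → ∀ B B' : Oracle,
      (∀ z : List Bool, z.length ≤ w.length → B z = B' z) → Φ B w = Φ B' w := by
    intro n
    induction n using Nat.strong_induction_on with
    | _ n ih =>
      intro w hw B B' h
      rcases hΦ w with hB | ⟨M, p, x, m, -, hm, hloc, hacc⟩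
      · rw [hB, hB]
        exact h w le_rfl
      · have hag : ∀ z : List Bool, z.length ≤ m → Φ B z = Φ B' z := fun z hz =>
          ih z.length (by omega) z rfl B B' fun z' hz' => h z' (by omega)
        have hiff : NAcc M p (Φ B) x ↔ NAcc M p (Φ B') x := by
          unfold NAcc
          constructor
          · rintro ⟨u, hu, hu2⟩
            exact ⟨u, hu, by rw [← (hloc u hu).2 (Φ B) (Φ B') hag]; exact hu2⟩
          · rintro ⟨u, hu, hu2⟩
            exact ⟨u, hu, by rw [(hloc u hu).2 (Φ B) (Φ B') hag]; exact hu2⟩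
        rw [← hacc, ← hacc] at hiff
        exact Bool.eq_iff_iff.2 hiff
  exact fun B B' w h => key w.length w rfl B B' h

end Pool.Agent.H516R2.EQP2
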