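import Pool.Agent.H516R2.EQP2.Props
import Pool.Agent.H516R2.EQP.QC

/-! # Task QP: the circuits with the prefix -/

namespace Pool.Agent.H516R2.EQP2

open Pool.Agent.NPC Pool.Agent.H620R2.Gauge Finset H568R2 Pool.Agent.H676 Pool.Agent.H516R2.EQP

/-! ### the acceptance probability -/

/-- the gate lists `l` (relative to `A`) and `l'` (relative to `tl A`) do the same -/
def QP_R (A : Oracle) (m : ℕ) (l l' : List Gate) : Prop :=
  ∀ ψ : (Fin m → Bool) → ℝ, circAct A l ψ = circAct (tl A) l' ψ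

theorem QP_circAct_append (A : Oracle) {m : ℕ} : ∀ (l l' : List Gate) (ψ : (Fin m → Bool) → ℝ),
    circAct A (l ++ l') ψ = circAct A l' (circAct A l ψ)
  | [], _, _ => rfl
  | g :: l, l', ψ => QP_circAct_append A l l' (gateAct A g ψ)

theorem QP_R_append {A : Oracle} {m : ℕ} {l1 l1' l2 l2' : List Gate} (h1 : QP_R A m l1 l1')
    (h2 : QP_R A m l2 l2') : QP_R A m (l1 ++ l2) (l1' ++ l2') := by
  intro ψ
  rw [QP_circAct_append, QP_circAct_append, h1, h2]

theorem QP_R_cons {A : Oracle} {m : ℕ} {g g' : Gate} {l l' : List Gate}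
    (h1 : ∀ ψ : (Fin m → Bool) → ℝ, gateAct A g ψ = gateAct (tl A) g' ψ) (h2 : QP_R A m l l') :
    QP_R A m (g :: l) (g' :: l') := by
  intro ψ
  change circAct A l (gateAct A g ψ) = circAct (tl A) l' (gateAct (tl A) g' ψ)
  rw [h1, h2]

theorem QP_R_had (A : Oracle) (m : ℕ) : ∀ l : List ℕ, QP_R A m (l.map had) (l.map had)
  | [] => fun _ => rfl
  | _ :: l => QP_R_cons (fun _ => rfl) (QP_R_had A m l)

theorem QP_R_nt (A : Oracle) (m : ℕ) : ∀ l : List ℕ, QP_R A m (l.map nt) (l.map nt)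
  | [] => fun _ => rfl
  | _ :: l => QP_R_cons (fun _ => rfl) (QP_R_nt A m l)

theorem QP_orc (A : Oracle) {m k : ℕ} (hk : ¬ k < m) (q : List ℕ) (j : ℕ)
    (ψ : (Fin m → Bool) → ℝ) : gateAct A (Sum.inr (true, k :: k :: q, j)) ψ =
      gateAct (tl A) (Sum.inr (true, q, j)) ψ := by
  change (fun s => ψ (flipIf (fun s => A ((k :: k :: q).map (rd s))) j s)) =
    fun s => ψ (flipIf (fun s => tl A (q.map (rd s))) j s)
  have h : (fun s : Fin m → Bool => A ((k :: k :: q).map (rd s))) =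
      fun s => tl A (q.map (rd s)) := by
    funext s
    have h1 : rd s k = false := by
      unfold rd
      rw [dif_neg hk]
    rw [List.map_cons, List.map_cons, h1]
    rfl
  rw [h]

theorem QP_R_A (A : Oracle) {m κ : ℕ} (hm : ¬ 6 + 3 * κ < m) : QP_R A m (AGP κ) (AG κ) := by
  unfold AGP AG
  exact QP_R_append (QP_R_append (QP_R_had A m _)
    (QP_R_cons (fun ψ => QP_orc A hm _ _ ψ) (QP_R_had A m _)))
    (QP_R_cons (fun ψ => QP_orc A hm _ _ ψ) (QP_R_had A m _))

theorem QP_R_At (A : Oracle) {m κ : ℕ} (hm : ¬ 6 + 3 * κ < m) : QP_R A m (AtGP κ) (AtG κ) := by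
  unfold AtGP AtG
  exact QP_R_append (QP_R_append (QP_R_had A m _)
    (QP_R_cons (fun ψ => QP_orc A hm _ _ ψ) (QP_R_had A m _)))
    (QP_R_cons (fun ψ => QP_orc A hm _ _ ψ) (QP_R_had A m _))

theorem QP_R_circ (A : Oracle) {m κ : ℕ} (hm : ¬ 6 + 3 * κ < m) :
    QP_R A m (circP κ).2 (circ κ).2 := by
  unfold circP circ
  refine QP_R_append (QP_R_append (QP_R_append (QP_R_append ?_ (QP_R_A A hm))
    (QP_R_cons (fun _ => rfl) (QP_R_At A hm))) (QP_R_cons (fun _ => rfl) (QP_R_A A hm)))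
    (QP_R_cons (fun _ => rfl) fun _ => rfl)
  unfold prepG
  exact QP_R_cons (fun _ => rfl) (QP_R_cons (fun _ => rfl) (QP_R_cons (fun _ => rfl)
    (QP_R_nt A m _)))

theorem QP_acc (A : Oracle) (κ : ℕ) : accProb A (circP κ) = accProb (tl A) (circ κ) := by
  have hm : ¬ 6 + 3 * κ < (circ κ).1.length := by
    have h1 : (circ κ).1 = List.replicate (6 + 3 * κ) () := rfl
    rw [h1, List.length_replicate]
    omega
  have h := QP_R_circ A hm (initSt (circ κ).1.length)
  change (∑ s : Fin (circ κ).1.length → Bool,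
    if rd s 0 then circAct A (circP κ).2 (initSt (circ κ).1.length) s ^ 2 else 0) = _
  rw [h]
  rfl

/-! ### polynomial time -/

theorem QP_orc1 : NPC.Poly (fun x : List Bool => orc1P x.length) := by
  have h : NPC.Poly (fun x : List Bool => 6 + 3 * x.length) :=
    (UPoly.add (UPoly.const 6) (UPoly.mul (UPoly.const 3) QC_len)).toPoly
  exact QC_gate true (NPC.Poly.cons h (NPC.Poly.cons h
    (NPC.Poly.cons (NPC.Poly.const 0) QC_idx))) 2

theorem QP_orc2 : NPC.Poly (fun x : List Bool => orc2P x.length) := by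
  have h : NPC.Poly (fun x : List Bool => 6 + 3 * x.length) :=
    (UPoly.add (UPoly.const 6) (UPoly.mul (UPoly.const 3) QC_len)).toPoly
  exact QC_gate true (NPC.Poly.cons h (NPC.Poly.cons h
    (NPC.Poly.cons (NPC.Poly.const 1) QC_idx))) 2

theorem QP_A : NPC.Poly (fun x : List Bool => AGP x.length) := by
  unfold AGP
  exact NPC.Poly.append (NPC.Poly.append (QC_had QC_idx) (NPC.Poly.cons QP_orc1 (QC_had QC_mid)))
    (NPC.Poly.cons QP_orc2 (QC_had QC_idx))

theorem QP_At : NPC.Poly (fun x : List Bool => AtGP x.length) := by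
  unfold AtGP
  exact NPC.Poly.append (NPC.Poly.append (QC_had QC_idx) (NPC.Poly.cons QP_orc2 (QC_had QC_mid)))
    (NPC.Poly.cons QP_orc1 (QC_had QC_idx))

theorem QP_circ : NPC.Poly (fun x : List Bool => circP x.length) := by
  unfold circP
  have h : UPoly (fun x : List Bool => 6 + 3 * x.length) :=
    UPoly.add (UPoly.const 6) (UPoly.mul (UPoly.const 3) QC_len)
  refine NPC.Poly.pair h ?_
  exact NPC.Poly.append (NPC.Poly.append (NPC.Poly.append (NPC.Poly.append QC_prep QP_A)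
    (NPC.Poly.cons QC_refl QP_At)) (NPC.Poly.cons QC_refl QP_A))
    (NPC.Poly.cons QC_fin (NPC.Poly.const []))

/-! ### number of questions -/

theorem QP_cnt_A (κ : ℕ) : QC_cnt (AGP κ) = 2 := by
  unfold AGP orc1P orc2P
  rw [QC_cnt_append, QC_cnt_append, QC_cnt_true, QC_cnt_true, QC_cnt_had, QC_cnt_had]

theorem QP_cnt_At (κ : ℕ) : QC_cnt (AtGP κ) = 2 := by
  unfold AtGP orc1P orc2P
  rw [QC_cnt_append, QC_cnt_append, QC_cnt_true, QC_cnt_true, QC_cnt_had, QC_cnt_had]

theorem QP_queries (κ : ℕ) : queries (circP κ) = 6 := by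
  show QC_cnt (prepG κ ++ AGP κ ++ refl κ :: AtGP κ ++ refl κ :: AGP κ ++ [fin κ]) = 6
  unfold Pool.Agent.H516R2.EQP.refl fin
  rw [QC_cnt_append, QC_cnt_append, QC_cnt_append, QC_cnt_append, QC_cnt_false, QC_cnt_false,
    QC_cnt_false, QC_cnt_prep, QP_cnt_A, QP_cnt_At, QC_cnt_nil]

theorem QP : St_QP := ⟨QP_acc, polyTime_bits QP_circ, QP_queries⟩

end Pool.Agent.H516R2.EQP2
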