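import Pool.Agent.H516R2.EQP2.Props
import Pool.Agent.H620R2.Gauge.Dt

/-! Task RT (helper134): runs with decision tree oracles. -/

namespace Pool.Agent.H516R2.EQP2

open Pool.Agent.NPC Pool.Agent.H620R2.Gauge Finset H568R2 Pool.Agent.H676 Pool.Agent.H516R2.EQP

theorem RT_add {I : Type*} [Fintype I] [DecidableEq I] {t : ℕ} {f : (I → Bool) → Bool}
    (h : DTr t f) (s : ℕ) : DTr (s + t) f := by
  induction s with
  | zero => rw [zero_add]; exact h
  | succ s ih =>
    have e : s + 1 + t = s + t + 1 := by omega
    rw [e]
    exact ih.succ

theorem RT_ite {I : Type*} [Fintype I] [DecidableEq I] (s t : ℕ) :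
    ∀ (c f g : (I → Bool) → Bool), DTr s c → DTr t f → DTr t g →
      DTr (s + t) (fun a => if c a = true then f a else g a) := by
  induction s with
  | zero =>
    intro c f g hc hf hg
    obtain ⟨b, hb⟩ := hc
    cases b with
    | true =>
      have e : (fun a => if c a = true then f a else g a) = f := by
        funext a; rw [hb a, if_pos rfl]
      rw [e]; exact RT_add hf 0
    | false =>
      have e : (fun a => if c a = true then f a else g a) = g := by
        funext a; rw [hb a, if_neg (by simp)]
      rw [e]; exact RT_add hg 0
  | succ s ih =>
    intro c f g hc hf hg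
    rcases hc with ⟨b, hb⟩ | ⟨i, hi⟩
    · cases b with
      | true =>
        have e : (fun a => if c a = true then f a else g a) = f := by
          funext a; rw [hb a, if_pos rfl]
        rw [e]; exact RT_add hf _
      | false =>
        have e : (fun a => if c a = true then f a else g a) = g := by
          funext a; rw [hb a, if_neg (by simp)]
        rw [e]; exact RT_add hg _
    · have e : s + 1 + t = s + t + 1 := by omega
      rw [e]
      exact Or.inr ⟨i, fun b => ih _ _ _ (hi b) (DTr_update hf i b) (DTr_update hg i b)⟩

theorem RT_run {I : Type} [Fintype I] [DecidableEq I] (O : (I → Bool) → Oracle) (M : Alg)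
    (y : List Bool) (t : ℕ) (h : ∀ z, DTr t (fun a => O a z)) : ∀ (n : ℕ) (acc : List Bool),
    DTr (t * n) (fun a => decide (M.run (O a) y n acc = some [true])) := by
  intro n
  induction n with
  | zero =>
    intro acc
    exact DTr.const ⟨false, fun a => by simp [Alg.run]⟩
  | succ n ih =>
    intro acc
    rcases hq : M.D (pairBits y acc) with _ | ⟨c, q⟩
    · exact DTr.const ⟨false, fun a => by simp [Alg.run, hq]⟩
    · cases c with
      | true => exact DTr.const ⟨decide (q = [true]), fun a => by simp [Alg.run, hq]⟩
      | false =>
        have e : (fun a => decide (M.run (O a) y (n + 1) acc = some [true])) =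
            fun a => if O a q = true then decide (M.run (O a) y n (acc ++ [true]) = some [true])
              else decide (M.run (O a) y n (acc ++ [false]) = some [true]) := by
          funext a
          have e1 : M.run (O a) y (n + 1) acc = M.run (O a) y n (acc ++ [O a q]) := by
            simp only [Alg.run, hq]
          rw [e1]
          cases O a q <;> simp
        rw [e]
        have e2 : t * (n + 1) = t + t * n := by ring
        rw [e2]
        exact RT_ite t (t * n) _ _ _ (h q) (ih _) (ih _)

theorem RT : St_RT := by
  intro I _ _ O M y t h
  exact RT_run O M y t h _ []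

end Pool.Agent.H516R2.EQP2
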