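import Pool.Agent.H516R2.EQP2.Props
import Pool.Agent.H620R2.Gauge.W

/-!
# Simultaneous switching
-/

namespace Pool.Agent.H516R2.EQP2

open Pool.Agent.NPC Pool.Agent.H620R2.Gauge Finset H568R2 Pool.Agent.H676 Pool.Agent.H516R2.EQP

theorem SW_ov_cmp {I : Type*} (ρ τ : Restr I) (a : I → Bool) :
    ov (H568R2.cmp ρ τ) a = ov ρ (ov τ a) := by
  funext i
  unfold ov H568R2.cmp
  cases ρ i <;> simp

/-- one node of the coding is a disjunction of shallow decision trees -/
theorem SW_cert (hrt : St_RT) {Φ : Oracle → Oracle} {I : Type} [Fintype I] [DecidableEq I]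
    (C : (I → Bool) → Oracle) {t l m : ℕ} (hml : m ≤ l)
    (hG : ∀ z : List Bool, z.length ≤ m → DTr t (fun a => Φ (C a) z))
    {w : List Bool} {M : Alg} {p : Polynomial ℕ} {x : List Bool} {n : ℕ} (hn : n ≤ m)
    (hloc : ∀ u : List Bool, u.length ≤ p.eval x.length → M.p.eval (pairBits u x).length ≤ n ∧
      ∀ A A' : Oracle, (∀ z : List Bool, z.length ≤ n → A z = A' z) →
        M.out A (pairBits u x) = M.out A' (pairBits u x))
    (hw : ∀ B, Φ B w = true ↔ NAcc M p (Φ B) x) :
    Cert (t * l) true (fun a => Φ (C a) w) := by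
  classical
  intro a ha
  obtain ⟨u, hu, hau⟩ := (hw (C a)).1 ha
  obtain ⟨hp, hl⟩ := hloc u hu
  let O : (I → Bool) → Oracle := fun a z => if z.length ≤ n then Φ (C a) z else false
  have hO : ∀ z, DTr t (fun a => O a z) := by
    intro z
    by_cases hz : z.length ≤ n
    · simp only [O, if_pos hz]
      exact hG z (hz.trans hn)
    · simp only [O, if_neg hz]
      exact DTr.const ⟨false, fun _ => rfl⟩
  have h1 := hrt I O M (pairBits u x) t hO
  have h2 : ∀ a, M.out (O a) (pairBits u x) = M.out (Φ (C a)) (pairBits u x) := by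
    intro a
    refine hl _ _ fun z hz => ?_
    simp only [O, if_pos hz]
  simp only [h2] at h1
  have h3 := h1.mono (Nat.mul_le_mul_left t ((hp.trans hn).trans hml))
  obtain ⟨A, hA, hy⟩ := h3.cert true a (by simpa using hau)
  refine ⟨A, hA, fun y hyA => ?_⟩
  have h4 := hy y hyA
  exact (hw (C y)).2 ⟨u, hu, by simpa using h4⟩

open Classical in
theorem SW (hlo : St_LO) (hrt : St_RT) : St_SW := by
  intro Φ hΦ I _ _ B l₀ t l J q hconst hB ht hl₀ h0 h1 hJl
  induction J with
  | zero =>
    have hgood : ∀ ρ : Restr I, ∀ w : List Bool, w.length ≤ l₀ ^ 2 ^ 0 →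
        DTr t (fun a => Φ (B (ov ρ a)) w) := by
      intro ρ w hw
      rw [pow_zero, pow_one] at hw
      refine DTr.const ⟨Φ (B (ov ρ (fun _ => false))) w, fun a => ?_⟩
      exact hlo Φ hΦ _ _ w fun z hz => hconst z (hz.trans hw) _ _
    have hfun : (fun ρ : Restr I => if ¬ ∀ w : List Bool, w.length ≤ l₀ ^ 2 ^ 0 →
        DTr t (fun a => Φ (B (ov ρ a)) w) then (1 : ℝ) else 0) = fun _ => 0 := by
      funext ρ
      rw [if_neg (not_not.2 (hgood ρ))]
    rw [hfun]
    unfold Ex
    simp
  | succ J ih =>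
    have hmono : l₀ ^ 2 ^ J ≤ l₀ ^ 2 ^ (J + 1) :=
      Nat.pow_le_pow_right hl₀ (Nat.pow_le_pow_right (by norm_num) (Nat.le_succ J))
    have hml : l₀ ^ 2 ^ J ≤ l := hmono.trans hJl
    have ih' := ih hml
    have hl1 : 1 ≤ l := (Nat.one_le_pow _ _ hl₀).trans hml
    rw [pow_succ, wq_cmp]
    set ε : ℝ := (12 * (t * l) * q) ^ (t + 1) with hε
    have hε0 : 0 ≤ ε := by positivity
    have hwj : ∀ a, 0 ≤ wq (q ^ J) a :=
      wq_nonneg (pow_nonneg h0 J) (pow_le_one₀ h0 (by linarith))
    have hw1 : ∀ a, 0 ≤ wq q a := wq_nonneg h0 (by linarith)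
    have hin : ∀ ρ : Restr I, Ex (wq q) (fun τ : Restr I =>
        if ¬ ∀ w : List Bool, w.length ≤ l₀ ^ 2 ^ (J + 1) →
          DTr t (fun a => Φ (B (ov (cmp ρ τ) a)) w) then (1 : ℝ) else 0) ≤
        (if ¬ ∀ w : List Bool, w.length ≤ l₀ ^ 2 ^ J →
          DTr t (fun a => Φ (B (ov ρ a)) w) then (1 : ℝ) else 0) + 2 ^ (l + 1) * ε := by
      intro ρ
      by_cases hG : ∀ w : List Bool, w.length ≤ l₀ ^ 2 ^ J → DTr t (fun a => Φ (B (ov ρ a)) w)
      · rw [if_neg (not_not.2 hG), zero_add]
        set S := W_strs (l₀ ^ 2 ^ (J + 1)) with hS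
        have hnn : ∀ τ : Restr I, ∀ w ∈ S, (0 : ℝ) ≤
            (if ¬ DTr t (rs (fun a => Φ (B (ov ρ a)) w) τ) then (1 : ℝ) else 0) := by
          intro τ w _
          split_ifs <;> norm_num
        have hpt : ∀ τ : Restr I, (if ¬ ∀ w : List Bool, w.length ≤ l₀ ^ 2 ^ (J + 1) →
            DTr t (fun a => Φ (B (ov (cmp ρ τ) a)) w) then (1 : ℝ) else 0) ≤
            ∑ w ∈ S, (if ¬ DTr t (rs (fun a => Φ (B (ov ρ a)) w) τ) then (1 : ℝ) else 0) := by
          intro τ
          by_cases hGG : ∀ w : List Bool, w.length ≤ l₀ ^ 2 ^ (J + 1) →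
            DTr t (fun a => Φ (B (ov (cmp ρ τ) a)) w)
          · rw [if_neg (not_not.2 hGG)]
            exact Finset.sum_nonneg (hnn τ)
          · rw [if_pos hGG]
            have hex : ∃ w : List Bool, w.length ≤ l₀ ^ 2 ^ (J + 1) ∧
                ¬ DTr t (fun a => Φ (B (ov (cmp ρ τ) a)) w) := by
              by_contra hcon
              apply hGG
              intro w hw
              by_contra hJ
              exact hcon ⟨w, hw, hJ⟩
            obtain ⟨w, hw, hJ⟩ := hex
            have e1 : (fun a => Φ (B (ov (cmp ρ τ) a)) w) =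
                rs (fun a => Φ (B (ov ρ a)) w) τ := by
              funext a
              unfold rs
              rw [SW_ov_cmp]
            rw [e1] at hJ
            refine le_trans ?_ (Finset.single_le_sum (hnn τ) (W_mem_strs hw))
            rw [if_pos hJ]
        refine (Ex_mono hw1 hpt).trans ?_
        rw [Ex_sum]
        have hterm : ∀ w ∈ S, Ex (wq q) (fun τ : Restr I =>
            (if ¬ DTr t (rs (fun a => Φ (B (ov ρ a)) w) τ) then (1 : ℝ) else 0)) ≤ ε := by
          intro w hw
          have hwl : w.length ≤ l₀ ^ 2 ^ (J + 1) := W_length_of_mem hw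
          rcases hΦ w with hw0 | ⟨M, p, x, n, hn2, hn, hloc, hiff⟩
          · -- a bit of the oracle
            have hz : (fun τ : Restr I =>
                (if ¬ DTr t (rs (fun a => Φ (B (ov ρ a)) w) τ) then (1 : ℝ) else 0)) =
                fun _ => 0 := by
              funext τ
              have e2 : (fun a => Φ (B (ov ρ a)) w) = rs (fun a => B a w) ρ := by
                funext a
                unfold rs
                rw [hw0]
              have e3 : DTr t (rs (fun a => Φ (B (ov ρ a)) w) τ) := by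
                rw [e2]
                exact (((hB w).mono ht).rs).rs
              rw [if_neg (not_not.2 e3)]
            rw [hz]
            have : Ex (wq q) (fun _ : Restr I => (0 : ℝ)) = 0 := by
              unfold Ex
              simp
            rw [this]
            exact hε0
          · have hnm : n ≤ l₀ ^ 2 ^ J := by
              have e2 : l₀ ^ 2 ^ (J + 1) = (l₀ ^ 2 ^ J) ^ 2 := by
                rw [← pow_mul, pow_succ]
              rw [e2] at hwl
              exact (lt_of_pow_lt_pow_left₀ 2 (Nat.zero_le _) (hn2.trans_le hwl)).le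
            have hc := SW_cert hrt (fun a => B (ov ρ a)) hml hG hnm hloc hiff
            have htl : 1 ≤ t * l := Nat.mul_pos ht hl1
            have h3 := switch (k := t) htl h0 h1 hc
            refine h3.trans (le_of_eq ?_)
            rw [hε]
            push_cast
            rfl
        refine (Finset.sum_le_sum hterm).trans ?_
        rw [Finset.sum_const, nsmul_eq_mul]
        apply mul_le_mul_of_nonneg_right _ hε0
        have hcard : S.card ≤ 2 ^ (l + 1) :=
          (W_card_strs _).trans (Nat.pow_le_pow_right (by norm_num) (by omega))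
        exact_mod_cast hcard
      · rw [if_pos hG]
        have hle : Ex (wq q) (fun τ : Restr I =>
            if ¬ ∀ w : List Bool, w.length ≤ l₀ ^ 2 ^ (J + 1) →
              DTr t (fun a => Φ (B (ov (cmp ρ τ) a)) w) then (1 : ℝ) else 0) ≤
            Ex (wq q) (fun _ : Restr I => (1 : ℝ)) := by
          apply Ex_mono hw1
          intro τ
          split_ifs <;> norm_num
        rw [Ex_const (wq_sum q)] at hle
        have : 0 ≤ 2 ^ (l + 1) * ε := by positivity
        linarith
    refine (Ex_mono hwj hin).trans ?_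
    rw [Ex_add, Ex_const (wq_sum _)]
    push_cast
    calc _ ≤ (J : ℝ) * 2 ^ (l + 1) * ε + 2 ^ (l + 1) * ε := add_le_add ih' le_rfl
      _ = _ := by ring

end Pool.Agent.H516R2.EQP2
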