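import Pool.Agent.H516R2.EQP.All
import Pool.Agent.H516R2.EQP2.CO
import Pool.Agent.H516R2.EQP2.LO
import Pool.Agent.H516R2.EQP2.CP
import Pool.Agent.H516R2.EQP2.RT
import Pool.Agent.H516R2.EQP2.SW
import Pool.Agent.H516R2.EQP2.GO
import Pool.Agent.H516R2.EQP2.L2p
import Pool.Agent.H516R2.EQP2.Z3p
import Pool.Agent.H516R2.EQP2.H1p
import Pool.Agent.H516R2.EQP2.H2p
import Pool.Agent.H516R2.EQP2.QP
import Pool.Agent.H516R2.EQP2.FIp

/-! The assembly of the second part. -/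

namespace Pool.Agent.H516R2.EQP2

open Pool.Agent.H516R2.EQP

theorem all_CM : St_CM :=
  CM (M4 (M3 (M1 B) M2) (P3 B)) (P5 (P3 B) (P4 (P1 B) (P2 B) (P3 B))) (R1 B) (P3 B)

theorem all_FIp : St_FIp :=
  FIp (task_QF QL QG) AL QP CO LO CP (GO LO RT (SW LO RT))
    (H2p (H1p B (L2p L1) (Z3p Z1 Z2) all_CM AS))

end Pool.Agent.H516R2.EQP2
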